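import Pool.Agent.L5helper87.RK.WHyper

/-!
# Hypergraph dualization by unambiguous read-`k`-times branching programs is not output-polynomial,
# for every `k` up to the logarithm of the number of vertices

For every `k ≥ 1` we construct hypergraphs `H` such that every nondeterministic branching program
with nonnegative weights which tests each vertex at most `k` times on every path (in any order, with
arbitrary sharing) and whose value is a positive constant times the indicator function of the
transversals of `H`, or of the complement, has at least `N ^ (log₂ N / C ^ k) - 1` nodes and arcs,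
where `N` is the number of edges plus the number of minimal transversals and `C` is an absolute
constant. With weights `0` and `1` these are the unambiguous nondeterministic read-`k`-times
programs (at most one accepting computation for each input), and the deterministic ones are among
them. So a monotone Boolean function with few prime implicants and few prime implicates (hence the
function and its complement have small nondeterministic read-once programs) can need superpolynomial
unambiguous, in particular deterministic, read-`k`-times programs. The bound is `2 ^ (n / C ^ k)` for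
the number `n` of the vertices; it is superpolynomial in `N` also if `k` grows like a small multiple
of `log n`.

* `WProg V`: a program has `size` nodes; `stop i` is the weight for stopping at the node `i`; `arc i l j`
  is the weight of the arc from `i` to `j` with the label `l` (weight `0`: no arc); the label `none` is a
  free (guessing) move, `some (v, true)` is the test `v ∈ S`, `some (v, false)` the test `v ∉ S`. All
  weights are nonnegative, and arcs lead to nodes with smaller numbers.
* `ok S l`: `1` if the label `l` is satisfied by `S`, otherwise `0`. `step P S i j`: the total weight of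
  the arcs from `i` to `j` with satisfied labels. `sol P S g`: the solution of the recursion
  `x i = g i + ∑ j < i, step i j * x j`. `P.val S o = sol P S P.stop o`: the total weight of the
  computations on `S` from the node `o`, a computation being a path with satisfied labels together
  with stopping at its end; its weight is the product of the weights.
* `WPath P o l`: the vertices tested along some path from the node `o` are those of the list `l` (the
  path need not be a computation for a set `S`, and it may end at any node).
* `WReadTimes P k o`: on every path from `o` each vertex is tested at most `k` times.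
* `Arc P`: the arcs of nonzero weight.
* `IsTransversal H S`: the set `S` meets all edges of `H`; `Tr H`: the set of the minimal such `S`.
* `ind p`: `1` if `p` is true, otherwise `0`.

Proof: the number of tests which can still follow is a potential of the nodes; the computations are
cut where it passes one of `4 k (k + 1)` levels. This writes the function as a sum of at most
`(s + 1) ^ (4 k (k + 1))` products of nonnegative functions, each of which depends on few data
vertices, and each data vertex occurs in at most `k` factors. A random colouring of the factors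
makes each term a product of a function which does not see a set `A` and a function which does not see
a set `B`, for disjoint sets of at least a fraction `4 ^ (-k) / 8` of the data vertices. The function is a
balanced alternating tree of gadgets which compute parities of sums of products of bits encoded by
pairs of data vertices, and at each leaf unary selectors choose one of several tuples of data vertices.
For a random choice of the tuples each of the products has an exponentially smaller correlation with
the product of the signs of the gadgets than the function itself.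
-/

set_option autoImplicit false

namespace Pool.Agent.L5helper87.Old.ReadKTimes

open Pool.Agent.L5helper18.DD Pool.Agent.L5helper60.DN Pool.Agent.L5helper87.RK

/-- the bound for the number of the nodes and arcs -/
theorem root (M D j N s r : ℕ) (h : N ≤ 2 ^ (M * 2 ^ j)) (hs : 2 ^ 4 ^ j ≤ (s + 1) ^ r)
    (hr : r ≠ 0) (hD : M ^ 2 * r ≤ D) (hD0 : 0 < D) :
    (N : ℝ) ^ (Real.logb 2 N / D) ≤ s + 1 := by
  have hs0 : (0 : ℝ) ≤ s := Nat.cast_nonneg s
  rcases Nat.eq_zero_or_pos N with h0 | h0
  · subst h0
    simp only [Nat.cast_zero, Real.logb_zero, zero_div, Real.rpow_zero]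
    linarith
  · have hN0 : (0 : ℝ) < N := by exact_mod_cast h0
    have hN1 : (1 : ℝ) ≤ N := by exact_mod_cast h0
    have hD' : (0 : ℝ) < D := by exact_mod_cast hD0
    set l := Real.logb 2 N with hl
    have hl0 : 0 ≤ l := Real.logb_nonneg (by norm_num) hN1
    have hl1 : l ≤ M * 2 ^ j := by
      have h1 : (N : ℝ) ≤ (2 : ℝ) ^ (M * 2 ^ j : ℕ) := by exact_mod_cast h
      have h2 := Real.logb_le_logb_of_le (b := 2) (by norm_num) hN0 h1
      rw [Real.logb_pow, Real.logb_self_eq_one (by norm_num)] at h2
      push_cast at h2
      linarith
    have hN : (N : ℝ) = (2 : ℝ) ^ l := (Real.rpow_logb (by norm_num) (by norm_num) hN0).symm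
    have e4 : (2 : ℝ) ^ 4 ^ j = (2 : ℝ) ^ ((4 : ℝ) ^ j) := by
      have := Real.rpow_natCast (2 : ℝ) (4 ^ j)
      rw [← this]
      push_cast
      rfl
    have h5 : l * l ≤ (M * 2 ^ j) * (M * 2 ^ j) := mul_le_mul hl1 hl1 hl0 (by positivity)
    have h6 : (4 : ℝ) ^ j = 2 ^ j * 2 ^ j := by rw [← mul_pow]; norm_num
    have h7 : ((M : ℝ) ^ 2 * r) ≤ D := by exact_mod_cast hD
    have h8 : l * (l / D) * r ≤ (4 : ℝ) ^ j := by
      rw [show l * (l / D) * r = (l * l * r) / D by ring, div_le_iff₀ hD']
      have h9 : (0 : ℝ) ≤ r := Nat.cast_nonneg r
      calc l * l * r ≤ (M * 2 ^ j) * (M * 2 ^ j) * r := mul_le_mul_of_nonneg_right h5 h9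
        _ = (4 : ℝ) ^ j * (M ^ 2 * r) := by rw [h6]; ring
        _ ≤ (4 : ℝ) ^ j * D := mul_le_mul_of_nonneg_left h7 (by positivity)
    have h10 : ((N : ℝ) ^ (l / D)) ^ r ≤ (s + 1 : ℝ) ^ r := by
      calc ((N : ℝ) ^ (l / D)) ^ r = (2 : ℝ) ^ (l * (l / D) * r) := by
            rw [hN, ← Real.rpow_mul (by norm_num), ← Real.rpow_natCast,
              ← Real.rpow_mul (by norm_num)]
        _ ≤ (2 : ℝ) ^ ((4 : ℝ) ^ j) := Real.rpow_le_rpow_of_exponent_le (by norm_num) h8
        _ = (2 : ℝ) ^ 4 ^ j := e4.symm
        _ ≤ (s + 1 : ℝ) ^ r := by
            have h3 : ((2 ^ 4 ^ j : ℕ) : ℝ) ≤ (((s + 1) ^ r : ℕ) : ℝ) := by exact_mod_cast hs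
            push_cast at h3
            exact h3
    exact le_of_pow_le_pow_left₀ hr (by positivity) h10

/-- **Superpolynomial lower bounds for unambiguous (more generally, nonnegatively weighted)
nondeterministic read-`k`-times branching programs, for hypergraphs with few edges and few minimal
transversals.** -/
theorem result : ∃ C : ℕ, 0 < C ∧ ∀ k : ℕ, 1 ≤ k → ∀ j : ℕ, ∃ (V : Type) (_ : Fintype V)
    (_ : DecidableEq V) (H : Finset (Finset V)) (N : ℕ), N = H.card + (Tr H).ncard ∧
    Fintype.card V ≤ C ^ k * 4 ^ j ∧ N ≤ 2 ^ (C ^ k * 2 ^ j) ∧
    ∀ (P : WProg V) (o : Fin P.size) (a : ℝ) (s : ℕ), WReadTimes P k o → 0 < a →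
      s = P.size + Nat.card (Arc P) →
      (∀ S, P.val S o = a * ind (IsTransversal H S)) ∨
        (∀ S, P.val S o = a * ind (¬ IsTransversal H S)) →
      2 ^ 4 ^ j ≤ (s + 1) ^ (4 * k * (k + 1)) ∧
      (N : ℝ) ^ (Real.logb 2 N / (C : ℝ) ^ k) ≤ s + 1 := by
  refine ⟨2 ^ 65, by positivity, fun k hk j => ?_⟩
  obtain ⟨V, i1, i2, H, h1, h2, h3⟩ := exists_whyper k j
  refine ⟨V, i1, i2, H, _, rfl, ?_, ?_, fun P o a s hkP ha hs hP => ?_⟩
  · refine h1.trans (Nat.mul_le_mul_right _ ?_)
    rw [← pow_mul]
    exact Nat.pow_le_pow_right (by norm_num) (by omega)
  · refine h2.trans (Nat.pow_le_pow_right (by norm_num) (Nat.mul_le_mul_right _ ?_))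
    rw [← pow_mul, ← pow_succ']
    exact Nat.pow_le_pow_right (by norm_num) (by omega)
  · have h4 := h3 P o a hkP ha hP
    rw [← hs] at h4
    refine ⟨h4, ?_⟩
    have hk2 : k + 1 ≤ 2 ^ k := Nat.lt_two_pow_self
    have h5 : (2 * 2 ^ (8 * k + 18)) ^ 2 * (4 * k * (k + 1)) ≤ (2 ^ 65) ^ k := by
      calc (2 * 2 ^ (8 * k + 18)) ^ 2 * (4 * k * (k + 1))
          ≤ (2 * 2 ^ (8 * k + 18)) ^ 2 * (4 * 2 ^ k * 2 ^ k) :=
            Nat.mul_le_mul_left _ (Nat.mul_le_mul (Nat.mul_le_mul_left _ (by omega)) hk2)
        _ = 2 ^ (18 * k + 40) := by ring
        _ ≤ (2 ^ 65) ^ k := by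
            rw [← pow_mul]
            exact Nat.pow_le_pow_right (by norm_num) (by omega)
    have h6 := root (2 * 2 ^ (8 * k + 18)) ((2 ^ 65) ^ k) j _ s (4 * k * (k + 1)) h2 h4
      (by positivity) h5 (by positivity)
    refine le_trans (le_of_eq ?_) h6
    push_cast
    rfl

end Pool.Agent.L5helper87.Old.ReadKTimes
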